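import Pool.Agent.K1H79.Q4.Quart

/-!
# 3-torsion in the class groups of all quartic fields

There are `Δ < 1/2` and `C` such that every number field `K` of degree `4` satisfies
`|Cl_K[3]| ≤ C |disc K| ^ Δ`.

In the notation of the problem: `C_{4,3}(Δ)` holds for some `Δ < 1/2`.  There is no exceptional field, no
condition on the Galois group and no unproved hypothesis.

Method.

* Fields without `√-3` (projects `RF`, `GE`).  Scholz reflection with `K(√-3)` and the counting argument of
  Ellenberg and Venkatesh, relative to the subfield `F` of `K` generated by the integers of small height: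
  `F = ℚ` or `F` has small discriminant.  The primes `𝔭` of `F` used are those with `N 𝔭 = 2 mod 3`
  (inert in `F(√-3)`); many squarefree products of such primes of small norm exist by an argument with the
  `L`-function of `F(√-3)/F`, polynomially in the discriminant of `F`.
* Fields `K` containing `k = ℚ(√-3)` (project `Q3`), `K = k(√α)`.  Here reflection gives nothing.  By
  Burgess' method over `ℤ[ω]` the number of ideals of `K` of norm at most `X`, `X = D ^ (1/4 + η)`, is
  `κ X + O(X ^ (1 - δ))` with the same `κ` as for the norms up to the Minkowski bound.  The ideals `𝔞` of norm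
  at most `X` with `𝔞³` in a given cell of the (Arakelov) class group correspond to values of a binary
  quadratic form over `ℤ[ω]` which are cubes; by the larger sieve in `ℤ[ω]` there are at most
  `X ^ (3/4 + ε)` of them, so there are many cosets of `Cl_K[3]`.

Starting-library theorems used as tools: `R362`/`Y772`/`Y773`/`Y767` (Hecke L-functions), `H604C` (Herbrand
quotients of cyclic extensions), `TH847`, `Y159` (lattice points, packing), `H568.GR` (divisor bound),
`R836.PP` (primes in residue classes), `H471R4.BW`, `R852.BC` (Stepanov, Burgess over `ℤ`), `H370R2`,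
`H951R4` (Mertens).
-/

set_option autoImplicit false

namespace Pool.Agent.Results.MP_695920_nt.AllQuarticFields

open NumberField

theorem result : ∃ Δ : ℝ, Δ < 1 / 2 ∧ ∃ C : ℝ, ∀ (K : Type) [Field K] [NumberField K],
    Module.finrank ℚ K = 4 →
      (Nat.card {x : ClassGroup (𝓞 K) // x ^ 3 = 1} : ℝ) ≤ C * |(discr K : ℝ)| ^ Δ := by
  obtain ⟨δ, C, hδ, -, -, h⟩ := Pool.Agent.K1H79.Q4.quart
  exact ⟨1 / 2 - δ, by linarith, C, h⟩

end Pool.Agent.Results.MP_695920_nt.AllQuarticFields
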