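import Pool.Agent.K1H79.SX.Thm

/-!
# 3-torsion in the class groups of all sextic fields

There are `Δ < 1/2` and `C` such that every number field `K` of degree `6` satisfies
`|Cl_K[3]| ≤ C |disc K| ^ Δ`.

In the notation of the problem: `C_{6,3}(Δ)` holds for some `Δ < 1/2`.  There is no exceptional field, no
condition on the Galois group or on the subfields and no unproved hypothesis.

Method (`K/F` denotes an extension of degree `3` of a quadratic field `F`).

* (Project `GE`) Fields without `√-3` in which every quadratic subfield `F` has `|disc F| ≥ |disc K| ^ η`: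
  Scholz reflection with `K(√-3)` and the counting argument of Ellenberg and Venkatesh relative to the
  subfield of `K` generated by the integers of small height, which then has even index in `K`.  The primes
  used are primes `𝔭` of this subfield with `N 𝔭 = 2 mod 3`.
* (Project `SX`) If `|disc F| < |disc K| ^ η`: genus theory.  If `K/F` is cyclic, `|Cl_K[3]|` is at most
  `|disc K| ^ ε |disc F| ^ C` (ambiguous classes, Hilbert 90).  Otherwise let `M` be the Galois closure of
  `K/F`, with group `S₃`, and `F'/F` the quadratic resolvent: for a class `c` of `K` killed by `3` the class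
  `σ(c) / σ²(c)` of `M` gives, up to ambiguous classes, a class of `F'`, and
  `|Cl_K[3]| ≤ C |disc K| ^ ε |disc F| ^ C |Cl_{F'}[3]|` with `|disc F'| ≤ C |disc F| ^ C |disc K|`.  Then the
  bound for the quartic field `F'` is used.
* Fields containing `√-3`: the same with `F = ℚ(√-3)`; here `F'` is a quartic field containing `√-3`, for
  which the bound is obtained (project `Q3`) from Burgess' method over `ℤ[ω]` and the larger sieve.

Starting-library theorems used as tools: those of the hand-in `AllQuarticFields` (same folder) and the
trivial bound from `TH847.LG`.
-/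

set_option autoImplicit false

namespace Pool.Agent.Results.MP_695920_nt.AllSexticFields

open NumberField

theorem result : ∃ Δ : ℝ, Δ < 1 / 2 ∧ ∃ C : ℝ, ∀ (K : Type) [Field K] [NumberField K],
    Module.finrank ℚ K = 6 →
      (Nat.card {x : ClassGroup (𝓞 K) // x ^ 3 = 1} : ℝ) ≤ C * |(discr K : ℝ)| ^ Δ := by
  obtain ⟨δ, C, hδ, -, h⟩ := Pool.Agent.K1H79.SX.sextic
  exact ⟨1 / 2 - δ, by linarith, C, h⟩

end Pool.Agent.Results.MP_695920_nt.AllSexticFields
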