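import Pool.Agent.K1H79.TOS.All2

/-!
# Torsion in class groups: a power saving for every field in many families

For all `n ≥ 2` and `l ≥ 1` there are `δ, η > 0` and `C` such that every number field `L` of degree `n`
in each of the following families has at most `C |disc L| ^ (1/2 - δ)` ideal classes killed by `l`.
`N` is a normal closure of `L`.

1. `N` has a subfield `k` (for instance `ℚ`) with `|disc k| ≤ |disc L| ^ η` such that for every normal
   subgroup `M ≠ 1` of `Gal(N/ℚ)` which fixes `k` there is a coset `g M` such that for every `σ = g x` in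
   it there are an embedding `φ` of `L` in `N` and `y ∈ M` such that `y φ` is none of the `σ ^ j φ`.
2. `L` has no subfields other than `ℚ` and `L`, and no `⟨σ⟩` is transitive on the embeddings.
3. `L` is Galois and its group has, for every central `z` of prime order, an element of the same order
   outside `⟨z⟩` (for instance every group with trivial centre).
4. `L` has no subfields other than `ℚ` and `L`, `disc L = d f ^ 2` with `|d| ≤ |disc L| ^ η`, and `n` is
   even or `disc L` is not a square.
-/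

set_option autoImplicit false

namespace Pool.Agent.Results.MP_695920_nt.NormalClosureCriterion

open NumberField

/-- the number of the ideal classes of `L` killed by `l` is at most `C |disc L| ^ (1/2 - δ)` -/
def Saves (l : ℕ) (δ C : ℝ) (L : Type) [Field L] [NumberField L] : Prop :=
  (Nat.card {c : ClassGroup (𝓞 L) // c ^ l = 1} : ℝ) ≤ C * |(discr L : ℝ)| ^ (1 / 2 - δ)

/-- for every normal subgroup `M ≠ 1` of `Gal(N/ℚ)` which fixes `k` there is `g` such that for every
`σ = g x` in `g M` there are an embedding `φ` of `L` in `N` and `y ∈ M` such that `y φ` is none of the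
`σ ^ j φ` -/
def OrbitCondition (L N : Type) [Field L] [NumberField L] [Field N] [NumberField N]
    (k : IntermediateField ℚ N) : Prop :=
  ∀ M : Subgroup Gal(N/ℚ), M.Normal → M ≠ ⊥ → M ≤ k.fixingSubgroup → ∃ g : Gal(N/ℚ), ∀ x ∈ M,
    ∃ φ : L →ₐ[ℚ] N, ∃ y ∈ M, ∀ j : ℤ, ∃ v : L, y (φ v) ≠ ((g * x) ^ j) (φ v)

/-- for every central `z` of prime order there is an element of the same order outside `⟨z⟩` -/
def CentreCondition (G : Type) [Group G] : Prop :=
  ∀ z ∈ Subgroup.center G, (orderOf z).Prime → ∃ x : G, orderOf x = orderOf z ∧ x ∉ Subgroup.zpowers z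

/-- no subfields other than `ℚ` and `L` -/
def NoSubfields (L : Type) [Field L] [NumberField L] : Prop :=
  ∀ E : IntermediateField ℚ L, E = ⊥ ∨ E = ⊤

/-- no `⟨σ⟩` is transitive on the embeddings of `L` in `N` -/
def NoFullCycle (L N : Type) [Field L] [NumberField L] [Field N] [NumberField N] : Prop :=
  ∀ σ : Gal(N/ℚ), ∃ φ ψ : L →ₐ[ℚ] N, ∀ j : ℤ, ∃ v : L, ψ v ≠ (σ ^ j) (φ v)

theorem result (n l : ℕ) (hn : 2 ≤ n) (hl : 1 ≤ l) : ∃ δ η C : ℝ, 0 < δ ∧ 0 < η ∧ 0 < C ∧
    (∀ (L N : Type) [Field L] [NumberField L] [Field N] [NumberField N] [Algebra L N] [IsGalois ℚ N]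
      [IsNormalClosure ℚ L N], Module.finrank ℚ L = n →
      ((∃ k : IntermediateField ℚ N, |(discr k : ℝ)| ≤ |(discr L : ℝ)| ^ η ∧ OrbitCondition L N k) ∨
        (NoSubfields L ∧ NoFullCycle L N)) → Saves l δ C L) ∧
    (∀ (L : Type) [Field L] [NumberField L] [IsGalois ℚ L], Module.finrank ℚ L = n →
      CentreCondition Gal(L/ℚ) → Saves l δ C L) ∧
    (∀ (L : Type) [Field L] [NumberField L], Module.finrank ℚ L = n → NoSubfields L →
      (Even n ∨ ¬ IsSquare (discr L)) →
      (∃ d f : ℤ, discr L = d * f ^ 2 ∧ |(d : ℝ)| ≤ |(discr L : ℝ)| ^ η) → Saves l δ C L) := by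
  obtain ⟨δ, η, C, hδ, hη, hC, h1, h2, h3, h4⟩ := Pool.Agent.K1H79.TOS.all2 n l hn hl
  refine ⟨δ, η, C, hδ, hη, hC, fun L N _ _ _ _ _ _ _ hL h => ?_, h2, h4⟩
  rcases h with ⟨k, hk, hc⟩ | h'
  · exact h1 L N k hL hk hc
  · exact h3 L N hL h'.1 h'.2

end Pool.Agent.Results.MP_695920_nt.NormalClosureCriterion
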