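import Pool.Agent.K1H79.TW.Fin2

/-!
# 3-torsion in the class groups of Galois fields, of towers, and of the fields above them

For all `n` and `η > 0` there are `Δ < 1/2`, `τ > 0` and `C` such that `|Cl_K[3]| ≤ C |disc K| ^ Δ` for every
number field `K` of degree `n` with subfields `F 0 ⊆ F 1 ⊆ ... ⊆ F j` such that

* every step `F (i+1) / F i` has degree `3`, or has even degree and is such that every `G` with
  `F i ⊆ G ⊆ F (i+1)` of odd index `≥ 5` in `F (i+1)` has `|disc G| ≥ |disc F (i+1)| ^ η` (for instance steps of
  degree `2` or `3`, and steps of even degree without intermediate fields);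
* `|disc F j| ≥ |disc K| ^ η` (for instance `F j = K`, and `K = (F j)(√-3)`), and `j = 0` or `√-3` is not in `F j`;
* `F 0` is Galois over `ℚ` and, for every central element `z` of prime order `p ≥ 5` of its Galois group, some
  element of order `p` is not a power of `z`; or `|disc F 0| ≤ |disc K| ^ τ`.

Examples.  (`j = 0`, `F 0 = K`) All Galois extensions `K/ℚ` of degree `n = 2 ^ a * 3 ^ b`; all Galois extensions such
that the order of the centre of the Galois group has no prime factor `p ≥ 5`.  (`F 0 = ℚ`, `F j = K`) All towers of
quadratic and cubic extensions of `ℚ`, and all fields of degree `2 ^ a` or `3 * 2 ^ a`, which do not contain `√-3`.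

Method.

* Transfer principle: `|Cl_K[3]| ≤ C |disc K| ^ ε (|disc K| / |disc E|) ^ (1/2) |Cl_E[3]|` for all fields
  `E ⊆ K` with `[K : ℚ] = n`.  The norm `Cl_K → Cl_E` has index at most `[K : E]` (a nontrivial class group
  character of `E` takes values other than `1` on many primes), `h_K R_K / (h_E R_E)` is compared with the
  residues of the zeta functions, the regulators by counting units (`R_E ≤ C R_K`, Northcott and Kronecker), and
  `ρ_K ≤ C |disc K| ^ ε ρ_E` follows from Taylor coefficients of `(s - 1) ζ(s)` at `s = 2` of order about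
  `log |disc K|`; no zero-free region is used.
* Towers: there is a first step `F i ⊆ F (i+1)` where the discriminant becomes large compared with the previous
  ones.  At this step the theorem on fields of even degree over a base field and the one on cubic extensions
  (both with polynomial dependence on the base field) give a power saving for `F (i+1)`, which is transferred
  to `K`.
* Galois fields: let `S` be the subfield generated by the subfields of small discriminant.  If there is no
  saving (by small primes, as in `NormalClosureCriterion`) then some central `z` of prime order `p` fixes `S`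
  and all elements of order `p` are powers of `z`, so `p = 2` or `3`.  If `p = 3` the fixed field `E` of `z`
  has a saving by induction and either `disc E` is large (transfer) or small (ambiguous classes of the cyclic
  cubic extension `K/E`).  If `p = 2` then `[K : S]` is even and Scholz reflection applies relative to `S`, to `K` if
  `√-3` is not in `K`, and to the fixed field of complex conjugation otherwise, followed by transfer.

Starting-library theorems used as tools: those of the hand-ins `AllQuarticFields`, `AllSexticFields` and
`NormalClosureCriterion` (same folder).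
-/

set_option autoImplicit false

namespace Pool.Agent.Results.MP_695920_nt.TowersAndGaloisFields

open NumberField

/-- for every central `z` of prime order `p ≥ 5` some element of order `p` is not a power of `z` -/
def CentreCondition (G : Type) [Group G] : Prop :=
  ∀ z ∈ Subgroup.center G, (orderOf z).Prime → 5 ≤ orderOf z →
    ∃ x : G, orderOf x = orderOf z ∧ x ∉ Subgroup.zpowers z

/-- `A ⊆ B` and `[B : A] = 3`, or `[B : A]` is even and every field `G` with `A ⊆ G ⊆ B` of odd index `e ≥ 5`
in `B` has `|disc G| ≥ |disc B| ^ η` -/
def Step {K : Type} [Field K] [NumberField K] (η : ℝ) (A B : IntermediateField ℚ K) : Prop :=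
  A ≤ B ∧ (Module.finrank ℚ B = 3 * Module.finrank ℚ A ∨ ∃ d : ℕ, Even d ∧
    Module.finrank ℚ B = d * Module.finrank ℚ A ∧
    ∀ G : IntermediateField ℚ K, A ≤ G → G ≤ B → ∀ e : ℕ, Odd e → 5 ≤ e →
      Module.finrank ℚ B = e * Module.finrank ℚ G → |(discr B : ℝ)| ^ η ≤ |(discr G : ℝ)|)

theorem result (n : ℕ) (η : ℝ) (hη : 0 < η) : ∃ Δ τ C : ℝ, Δ < 1 / 2 ∧ 0 < τ ∧
    ∀ (K : Type) [Field K] [NumberField K], Module.finrank ℚ K = n →
      ∀ (j : ℕ) (F : ℕ → IntermediateField ℚ K), (∀ i < j, Step η (F i) (F (i + 1))) →
        |(discr K : ℝ)| ^ η ≤ |(discr (F j) : ℝ)| → (j = 0 ∨ ∀ x ∈ F j, x ^ 2 ≠ -3) →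
        ((IsGalois ℚ (F 0) ∧ CentreCondition Gal((F 0)/ℚ)) ∨ |(discr (F 0) : ℝ)| ≤ |(discr K : ℝ)| ^ τ) →
          (Nat.card {x : ClassGroup (𝓞 K) // x ^ 3 = 1} : ℝ) ≤ C * |(discr K : ℝ)| ^ Δ := by
  obtain ⟨δ, τ, C, hδ, hτ, -, h⟩ :=
    Pool.Agent.K1H79.TW.fin2_of Pool.Agent.K1H79.TW.fin Pool.Agent.K1H79.SX.t_TRIV n η hη
  refine ⟨1 / 2 - δ, τ, C, by linarith, hτ, fun K _ _ hK j F hF h1 h2 h3 => h K hK j F hF h1 h2 ?_⟩
  exact h3.imp_left fun h4 => Or.inr (Or.inr h4)

end Pool.Agent.Results.MP_695920_nt.TowersAndGaloisFields
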